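import Pool.Agent.Run7.h885.CL.Low
import Pool.Agent.Run7.h885.GF.TwoFam
import Pool.Agent.Run7.h885.FS.One
import Pool.Agent.Run7.h885.FS.Curve

/-!
The limits of the wired cluster and of the trace of the exploration path, and fixed sets.
-/

namespace Pool.Agent.Run7.h885.CL

open H934E MeasureTheory TopologicalSpace Filter Topology Set Metric
open scoped ENNReal
open Pool.Agent.Run7.h885.GF
open Pool.Agent.Run7.h885.FS (H1 H2 Codim energy content ess_trace measurableSet_dim II essSup_eq)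

/-- the rectangle in the other model -/
def toN (R : Rect) : H984N.Rect := ⟨R.A, R.B, R.H, R.t, R.hA, R.hB, R.hH, R.ht1, R.ht2⟩

theorem isOpen_D (R : Rect) : IsOpen R.D := H443B.isOpen_D (toN R)

theorem isSigmaCompact_D (R : Rect) : IsSigmaCompact R.D := FS.isSigmaCompact_D (toN R)

theorem dimH_D (R : Rect) : dimH R.D = 2 := FS.dimH_D (toN R)

theorem e548 : (5 / 48 : ℝ≥0∞) = ENNReal.ofReal (5 / 48) := by
  rw [ENNReal.ofReal_div_of_pos (by norm_num)]
  norm_num

/-- the laws of the limits of the wired cluster -/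
def MC (R : Rect) : Set (Measure (NonemptyCompacts ℂ)) :=
  {m | ∃ μ : ProbabilityMeasure (NonemptyCompacts ℂ), IsC R μ ∧ m = (μ : Measure _)}

theorem MC_prob (R : Rect) : ∀ m ∈ MC R, IsProbabilityMeasure m := by
  rintro m ⟨μ, -, rfl⟩
  infer_instance

theorem hl_clus (R : Rect) : HL (MC R) R.D (5 / 48) := by
  obtain ⟨C, hC, h⟩ := td_clus
  refine hl_of (isOpen_D R) (by norm_num) hC ?_ ?_
  · rintro m ⟨μ, hμ, rfl⟩
    exact h R μ hμ
  · intro Q hQ hQD
    obtain ⟨c, r0, hc, hr0, h1⟩ := h1_clus R hQ hQD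
    refine ⟨c, r0, hc, hr0, ?_⟩
    rintro m ⟨μ, hμ, rfl⟩
    exact h1 μ hμ

theorem codim_clus (R : Rect) {μ : ProbabilityMeasure (NonemptyCompacts ℂ)} (hμ : IsC R μ) :
    Codim id R.D (5 / 48) (μ : Measure (NonemptyCompacts ℂ)) := by
  obtain ⟨C, hC, h⟩ := hu_clus
  rw [e548]
  refine codim (isOpen_D R) (by norm_num) hC.le (hl_clus R) (MC_prob R) ?_ ⟨μ, hμ, rfl⟩
  rintro m ⟨μ', hμ', rfl⟩
  exact h R μ' hμ'

theorem codim_trace (R : Rect) {μ : ProbabilityMeasure (NonemptyCompacts ℂ)} (hμ : IsT R μ) :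
    Codim id R.D (1 / 4) (μ : Measure (NonemptyCompacts ℂ)) := by
  obtain ⟨δ, hδ, hδ0, ht⟩ := hμ
  constructor
  · intro S hS
    filter_upwards [H443B.fixed_trace R hδ hδ0 ht (isOpen_D R) hS] with K hK
    rw [inter_comm]
    exact hK
  · intro S hS hSD a ha
    exact ess_trace R hδ hδ0 ht hS hSD ha

/-- the capacity and content bounds -/
theorem cap_clus (R : Rect) {Q : Set ℂ} (hQ : IsCompact Q) (hQD : Q ⊆ R.D) :
    ∃ c C : ℝ, 0 < c ∧ 0 < C ∧ ∀ μ : ProbabilityMeasure (NonemptyCompacts ℂ), IsC R μ →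
      ∀ S ⊆ Q,
        (IsCompact S → ∀ ν : Measure ℂ, IsFiniteMeasure ν → ν Sᶜ = 0 →
          ENNReal.ofReal c * ν S ^ 2 / energy (5 / 48) ν ≤
            (μ : Measure (NonemptyCompacts ℂ)) {K | ((K : Set ℂ) ∩ S).Nonempty}) ∧
        (μ : Measure (NonemptyCompacts ℂ)) {K | ((K : Set ℂ) ∩ S).Nonempty} ≤
          ENNReal.ofReal C * content (5 / 48) S := by
  obtain ⟨C0, hC0, h⟩ := hu_clus
  obtain ⟨c, hc, h1⟩ := cap_low (by norm_num) (hl_clus R) (MC_prob R) hQ hQD
  obtain ⟨C, hC, h2⟩ := content_up (isOpen_D R) (by norm_num : (0 : ℝ) < 5 / 48) hC0.le hQ hQD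
  refine ⟨c, C, hc, hC, ?_⟩
  intro μ hμ S hSQ
  refine ⟨?_, h2 _ inferInstance (h R μ hμ) S hSQ⟩
  intro hS ν hν hνS
  have h3 := h1 _ ⟨μ, hμ, rfl⟩ S hSQ hS ν hν hνS
  have e : ν univ = ν S := by
    have h4 := measure_add_measure_compl (μ := ν) hS.isClosed.measurableSet
    rw [hνS, add_zero] at h4
    exact h4.symm
  rw [e] at h3
  exact h3

/-- one cluster -/
theorem one_clus (R : Rect) {μ : ProbabilityMeasure (NonemptyCompacts ℂ)} (hμ : IsC R μ)
    {S : Set ℂ} (hS : IsSigmaCompact S) (hSD : S ⊆ R.D) :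
    essSup (fun K : NonemptyCompacts ℂ => dimH (S ∩ (K : Set ℂ)))
      (μ : Measure (NonemptyCompacts ℂ)) = dimH S - 5 / 48 := by
  have hc := codim_clus R hμ
  apply essSup_eq
  · filter_upwards [hc.up S hSD] with K hK
    exact hK.1
  · intro a ha
    rw [tsub_le_iff_right]
    exact hc.low S hS hSD a ha

/-- several clusters and several traces -/
theorem many (R : Rect) {j k : ℕ} {μ : Fin j → ProbabilityMeasure (NonemptyCompacts ℂ)}
    {ν : Fin k → ProbabilityMeasure (NonemptyCompacts ℂ)}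
    (hμ : ∀ i, IsC R (μ i)) (hν : ∀ i, IsT R (ν i)) {S : Set ℂ} (hS : IsSigmaCompact S)
    (hSD : S ⊆ R.D) :
    essSup (fun p => dimH (I2 S p)) ((Measure.pi fun i => (μ i : Measure (NonemptyCompacts ℂ))).prod
      (Measure.pi fun i => (ν i : Measure (NonemptyCompacts ℂ)))) =
        dimH S - (j * (5 / 48) + k * (1 / 4)) ∧
    (dimH S < j * (5 / 48) + k * (1 / 4) →
      ∀ᵐ p ∂((Measure.pi fun i => (μ i : Measure (NonemptyCompacts ℂ))).prod
        (Measure.pi fun i => (ν i : Measure (NonemptyCompacts ℂ)))), I2 S p = ∅) ∧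
    (j * (5 / 48) + k * (1 / 4) < dimH S →
      0 < ((Measure.pi fun i => (μ i : Measure (NonemptyCompacts ℂ))).prod
        (Measure.pi fun i => (ν i : Measure (NonemptyCompacts ℂ)))) {p | (I2 S p).Nonempty}) := by
  obtain ⟨h1, h2, h3⟩ := two_fam (μ := fun i => (μ i : Measure (NonemptyCompacts ℂ)))
    (ν := fun i => (ν i : Measure (NonemptyCompacts ℂ))) (fun i => inferInstance)
    (fun i => inferInstance) (fun i => codim_clus R (hμ i)) (fun i => codim_trace R (hν i)) hS hSD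
  refine ⟨?_, h2, ?_⟩
  · apply essSup_eq h1
    intro a ha
    rw [tsub_le_iff_right]
    exact h3 a ha
  · intro hlt
    rw [pos_iff_ne_zero]
    intro h0
    have h4 := h3 0 (by
      have h4 : ∀ᵐ p ∂((Measure.pi fun i => (μ i : Measure (NonemptyCompacts ℂ))).prod
          (Measure.pi fun i => (ν i : Measure (NonemptyCompacts ℂ)))), ¬ (I2 S p).Nonempty := by
        rw [ae_iff]
        simpa only [not_not] using h0
      filter_upwards [h4] with p hp
      rw [not_nonempty_iff_eq_empty.mp hp, dimH_empty])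
    rw [zero_add] at h4
    exact absurd hlt (not_lt.mpr h4)

end Pool.Agent.Run7.h885.CL
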