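import Pool.Agent.H389R2.CD.Low
import Pool.Agent.Run7.h885.FS.Defs

/-!
Definitions: limits of the wired cluster and of the trace of the exploration path.
-/

namespace Pool.Agent.Run7.h885.CL

open H934E MeasureTheory TopologicalSpace Filter Topology

/-- `μ` is a weak limit of the laws of the wired cluster in `R`, along some sequence of meshes
tending to `0`. -/
def IsC (R : Rect) (μ : ProbabilityMeasure (NonemptyCompacts ℂ)) : Prop :=
  ∃ δ : ℕ → ℝ, (∀ i, 0 < δ i) ∧ Tendsto δ atTop (𝓝 0) ∧
    Tendsto (fun i => Pool.Agent.H389R2.CD.clusLaw R (δ i)) atTop (𝓝 μ)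

/-- `μ` is a weak limit of the laws of the trace of the exploration path in `R`, along some
sequence of meshes tending to `0`. -/
def IsT (R : Rect) (μ : ProbabilityMeasure (NonemptyCompacts ℂ)) : Prop :=
  ∃ (δ : ℕ → ℝ) (hδ : ∀ i, 0 < δ i), Tendsto δ atTop (𝓝 0) ∧
    Tendsto (fun i => R.law (hδ i)) atTop (𝓝 μ)

end Pool.Agent.Run7.h885.CL
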