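import Pool.Agent.Run7.h885.CL.Two
import Pool.Agent.Run7.h885.CL.Defs
import Pool.Agent.Run7.h885.GF.Red

/-!
The limits of the wired cluster: one-point and two-point upper bounds.
-/

set_option maxHeartbeats 1000000

namespace Pool.Agent.Run7.h885.CL

open H974 H934E Pool.Agent.H160R2.CV Pool.Agent.H389R2.CD MeasureTheory TopologicalSpace Filter
  Topology Metric Set
open scoped ENNReal
open Pool.Agent.Run7.h885.GF

theorem hu_clus : ∃ C : ℝ, 0 < C ∧ ∀ (R : Rect) (μ : ProbabilityMeasure (NonemptyCompacts ℂ)),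
    IsC R μ → HU (μ : Measure (NonemptyCompacts ℂ)) R.D (5 / 48) C := by
  obtain ⟨C, hC, h⟩ := one_point_upper Pool.Agent.H160R2.SA.arSharp
  refine ⟨C, hC, ?_⟩
  rintro R μ ⟨δ, hδ, hlim, hμ⟩ z r s hr hrs hD
  have h1 := h R δ hδ hlim μ hμ z r s hr hrs hD
  rw [← ofReal_measureReal]
  exact ENNReal.ofReal_le_ofReal h1

theorem away_of_ball {R : Rect} {z : ℂ} {d : ℝ} (hd : 0 < d) (h : ball z d ⊆ R.D) :
    Away R z (d / 2) := by
  have mem : ∀ u : ℂ, ‖u‖ < d → z + u ∈ R.D := by
    intro u hu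
    apply h
    rw [mem_ball, Complex.dist_eq]
    simpa using hu
  have m1 := mem ((-(d / 2) : ℝ) : ℂ) (by
    rw [Complex.norm_real, Real.norm_eq_abs, abs_neg, abs_of_pos (by positivity)]; linarith)
  have m2 := mem ((d / 2 : ℝ) : ℂ) (by
    rw [Complex.norm_real, Real.norm_eq_abs, abs_of_pos (by positivity)]; linarith)
  have m3 := mem (((-(d / 2) : ℝ) : ℂ) * Complex.I) (by
    rw [norm_mul, Complex.norm_I, mul_one, Complex.norm_real, Real.norm_eq_abs, abs_neg,
      abs_of_pos (by positivity)]; linarith)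
  have m4 := mem (((d / 2 : ℝ) : ℂ) * Complex.I) (by
    rw [norm_mul, Complex.norm_I, mul_one, Complex.norm_real, Real.norm_eq_abs,
      abs_of_pos (by positivity)]; linarith)
  unfold Rect.D at m1 m2 m3 m4
  simp only [Set.mem_ofPred_eq, Complex.add_re, Complex.add_im, Complex.ofReal_re,
    Complex.ofReal_im, Complex.mul_re, Complex.mul_im, Complex.I_re, Complex.I_im] at m1 m2 m3 m4
  exact ⟨by linarith [m1.1], by linarith [m3.2.2.1], by linarith [m4.2.2.2],
    by linarith [m2.2.1]⟩

theorem ball_sub_sq (z : ℂ) (r : ℝ) : ball z r ⊆ sq z r := by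
  intro w hw
  rw [mem_ball, Complex.dist_eq] at hw
  have a1 := Complex.abs_re_le_norm (w - z)
  have a2 := Complex.abs_im_le_norm (w - z)
  rw [Complex.sub_re] at a1
  rw [Complex.sub_im] at a2
  exact ⟨by linarith, by linarith⟩

theorem td_clus : ∃ C : ℝ, 0 < C ∧ ∀ (R : Rect) (μ : ProbabilityMeasure (NonemptyCompacts ℂ)),
    IsC R μ → TD (μ : Measure (NonemptyCompacts ℂ)) R.D (5 / 48) C := by
  obtain ⟨C1, hC1, h1⟩ := hu_clus
  obtain ⟨C2, hC2, h2⟩ := two_lat
  refine ⟨128 * C1 + 4 * C2 + 1, by positivity, ?_⟩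
  rintro R μ hR z w r d hr hd hz hw hzw
  have hDpos : 0 < dist z w := dist_pos.mpr hzw
  have hmin : 0 < min (dist z w) d := lt_min hDpos hd
  obtain ⟨X, hX⟩ : ∃ X, X = (r / d) * (r / min (dist z w) d) := ⟨_, rfl⟩
  rw [← hX]
  have hX0 : 0 ≤ X := by rw [hX]; positivity
  have hq0 : 0 ≤ X ^ (5 / 48 : ℝ) := by positivity
  by_cases hrd : d < r
  · refine prob_le_one.trans ?_
    rw [← ENNReal.ofReal_one]
    apply ENNReal.ofReal_le_ofReal
    have h3 : 1 ≤ r / d := by rw [one_le_div hd]; exact hrd.le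
    have h4 : 1 ≤ r / min (dist z w) d := by
      rw [one_le_div hmin]; exact (min_le_right _ _).trans hrd.le
    have h5 : 1 ≤ X := by rw [hX]; exact one_le_mul_of_one_le_of_one_le h3 h4
    have h6 : 1 ≤ X ^ (5 / 48 : ℝ) := Real.one_le_rpow h5 (by norm_num)
    have h7 : 1 ≤ 128 * C1 + 4 * C2 + 1 := by linarith
    exact one_le_mul_of_one_le_of_one_le h7 h6
  push Not at hrd
  by_cases hcase : 128 * r ≤ d ∧ 40 * r ≤ dist z w
  · obtain ⟨δ, hδ, hlim, hμ⟩ := hR
    have hop := ((NonemptyCompacts.isOpen_inter_nonempty_of_isOpen (isOpen_ball (x := z) (ε := r))).inter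
      (NonemptyCompacts.isOpen_inter_nonempty_of_isOpen (isOpen_ball (x := w) (ε := r))))
    refine (lim_open_le (S := fun i => R.edges (δ i)) (K := fun i => clus R (δ i)) hμ hop
      (q := C2 * ((r / (d / 2)) * (r / min (dist z w) (d / 2))) ^ ((5 : ℝ) / 48)) ?_).trans ?_
    · filter_upwards [hlim.eventually_lt_const (show (0 : ℝ) < r / 16 by positivity)] with i hi
      refine le_trans (Pr_mono w_ok ?_) (h2 R z w (d / 2) r (δ i) hr (hδ i) (by linarith)
        (by linarith [hcase.1]) (away_of_ball hd hz) (away_of_ball hd hw) hcase.2)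
      rintro F _ ⟨k1, k2⟩
      exact ⟨k1.mono (inter_subset_inter_right _ (ball_sub_sq z r)),
        k2.mono (inter_subset_inter_right _ (ball_sub_sq w r))⟩
    · apply ENNReal.ofReal_le_ofReal
      have hm2 : 0 < min (dist z w) (d / 2) := lt_min hDpos (by positivity)
      have k1 : (r / (d / 2)) * (r / min (dist z w) (d / 2)) ≤ 4 * X := by
        have k2 : min (dist z w) d / 2 ≤ min (dist z w) (d / 2) := by
          apply le_min
          · have := min_le_left (dist z w) d
            linarith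
          · have := min_le_right (dist z w) d
            linarith
        have k3 : r / min (dist z w) (d / 2) ≤ r / (min (dist z w) d / 2) :=
          div_le_div_of_nonneg_left hr.le (by positivity) k2
        calc (r / (d / 2)) * (r / min (dist z w) (d / 2))
            ≤ (r / (d / 2)) * (r / (min (dist z w) d / 2)) := by gcongr
          _ = 4 * X := by rw [hX]; field_simp; norm_num
      have k4 := qk_le (q := (5 : ℝ) / 48) (by positivity) hX0 (by norm_num) (by norm_num)
        (by norm_num) k1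
      have k5 : C2 * ((r / (d / 2)) * (r / min (dist z w) (d / 2))) ^ ((5 : ℝ) / 48) ≤
          C2 * (4 * X ^ ((5 : ℝ) / 48)) := by gcongr
      have k6 : 0 ≤ (128 * C1 + 1) * X ^ (5 / 48 : ℝ) := by positivity
      linarith
  · have k1 : 1 ≤ 128 * (r / min (dist z w) d) := by
      rw [← mul_div_assoc, one_le_div hmin]
      by_contra k2
      rw [not_le, lt_min_iff] at k2
      exact hcase ⟨k2.2.le, by linarith [k2.1]⟩
    have k0 := h1 R μ hR z r d hr hrd hz
    refine (measure_mono ?_).trans (k0.trans ?_)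
    · rintro K ⟨⟨u, hu1, hu2⟩, -⟩
      exact ⟨u, hu1, ball_subset_closedBall hu2⟩
    apply ENNReal.ofReal_le_ofReal
    have k2 : r / d ≤ 128 * X := by
      have k3 : 0 < r / d := by positivity
      rw [hX]
      nlinarith
    have k5 := qk_le (q := (5 : ℝ) / 48) (by positivity) hX0 (by norm_num) (by norm_num)
      (by norm_num) k2
    have k6 : C1 * (r / d) ^ ((5 : ℝ) / 48) ≤ C1 * (128 * X ^ ((5 : ℝ) / 48)) := by gcongr
    have k7 : 0 ≤ (4 * C2 + 1) * X ^ (5 / 48 : ℝ) := by positivity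
    linarith

end Pool.Agent.Run7.h885.CL
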