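import Pool.Agent.Run7.h885.CL.LowLat
import Pool.Agent.Run7.h885.CL.Lim

/-!
The limits of the wired cluster: one-point lower bound.
-/

set_option maxHeartbeats 1000000

namespace Pool.Agent.Run7.h885.CL

open H974 H934E Pool.Agent.H160R2.CV Pool.Agent.H389R2.CD MeasureTheory TopologicalSpace Filter
  Topology Metric Set
open scoped ENNReal
open Pool.Agent.Run7.h885.GF
open Pool.Agent.Run7.h885.FS (H1 hd continuous_hd)

theorem box_geo (R : Rect) {z : ℂ} {d δ : ℝ} (hδ : 0 < δ) (hd8 : 8 * δ ≤ d) (hz : Away R z d) :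
    ∃ n : ℕ, d / (8 * δ) ≤ n ∧ (n : ℝ) ≤ d / (4 * δ) ∧ R.x0 δ ≤ 0 ∧
      R.x0 δ ≤ (ce δ z).1 - 3 * n ∧ (ce δ z).1 + 3 * n ≤ R.x1 δ ∧ 0 ≤ (ce δ z).2 - 3 * n ∧
      (ce δ z).2 + 3 * n ≤ R.y1 δ ∧
      (ce δ z).1 + n - R.x0 δ ≤ ⌈4 * (R.A + R.B) / d⌉₊ * (2 * n) := by
  obtain ⟨z1, z2, z3, z4⟩ := hz
  have hd0 : 0 < d := by linarith
  have hA := R.hA
  have hB := R.hB
  obtain ⟨x, hx⟩ : ∃ x, x = d / (4 * δ) := ⟨_, rfl⟩
  have hx2 : 2 ≤ x := by rw [hx, le_div_iff₀ (by positivity)]; linarith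
  have hx8 : d / (8 * δ) = x / 2 := by rw [hx]; field_simp; norm_num
  have hn1 : (⌊x⌋₊ : ℝ) ≤ x := Nat.floor_le (by linarith)
  have hn2 : x < (⌊x⌋₊ : ℝ) + 1 := Nat.lt_floor_add_one _
  obtain ⟨n, hn⟩ : ∃ n : ℕ, n = ⌊x⌋₊ := ⟨_, rfl⟩
  rw [← hn] at hn1 hn2
  have hdd : d / δ = 4 * x := by rw [hx]; field_simp
  have f1 : (⌊z.re / δ⌋ : ℝ) ≤ z.re / δ := Int.floor_le _
  have f2 : z.re / δ < (⌊z.re / δ⌋ : ℝ) + 1 := Int.lt_floor_add_one _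
  have f3 : (⌊z.im / δ⌋ : ℝ) ≤ z.im / δ := Int.floor_le _
  have f4 : z.im / δ < (⌊z.im / δ⌋ : ℝ) + 1 := Int.lt_floor_add_one _
  have d1 : 4 * x ≤ z.re / δ + R.A / δ := by
    rw [← hdd, ← add_div]; exact div_le_div_of_nonneg_right z1 hδ.le
  have d2 : 4 * x ≤ z.im / δ := by rw [← hdd]; exact div_le_div_of_nonneg_right z2 hδ.le
  have d3 : 4 * x ≤ R.H / δ - z.im / δ := by
    rw [← hdd, ← sub_div]; exact div_le_div_of_nonneg_right z3 hδ.le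
  have d4 : 4 * x ≤ R.B / δ - z.re / δ := by
    rw [← hdd, ← sub_div]; exact div_le_div_of_nonneg_right z4 hδ.le
  have x01 : (R.x0 δ : ℝ) ≤ -(R.A / δ) + 1 := by
    unfold Rect.x0; push_cast; linarith [Int.floor_le (-(R.A / δ))]
  have x02 : -(R.A / δ) < (R.x0 δ : ℝ) := by
    unfold Rect.x0; push_cast; linarith [Int.lt_floor_add_one (-(R.A / δ))]
  have x11 : R.B / δ - 1 ≤ (R.x1 δ : ℝ) := by
    unfold Rect.x1; push_cast; linarith [Int.le_ceil (R.B / δ)]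
  have y11 : R.H / δ - 2 ≤ (R.y1 δ : ℝ) := by
    unfold Rect.y1; push_cast; linarith [Int.le_ceil (R.H / δ)]
  have c1 : ((ce δ z).1 : ℝ) = ⌊z.re / δ⌋ := rfl
  have c2 : ((ce δ z).2 : ℝ) = ⌊z.im / δ⌋ - 1 := by
    have : (ce δ z).2 = ⌊z.im / δ⌋ - 1 := rfl
    rw [this]; push_cast; ring
  refine ⟨n, by rw [hx8]; linarith, by rw [← hx]; exact hn1, ?_, ?_, ?_, ?_, ?_, ?_⟩
  · unfold Rect.x0
    have h1 : 0 < R.A / δ := by positivity
    have h2 : ⌊-(R.A / δ)⌋ < 0 := by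
      rw [Int.floor_lt]; push_cast; linarith
    omega
  · have : (R.x0 δ : ℝ) ≤ (((ce δ z).1 - 3 * n : ℤ) : ℝ) := by push_cast; rw [c1]; linarith
    exact_mod_cast this
  · have : (((ce δ z).1 + 3 * n : ℤ) : ℝ) ≤ (R.x1 δ : ℝ) := by push_cast; rw [c1]; linarith
    exact_mod_cast this
  · have : (0 : ℝ) ≤ (((ce δ z).2 - 3 * n : ℤ) : ℝ) := by push_cast; rw [c2]; linarith
    exact_mod_cast this
  · have : (((ce δ z).2 + 3 * n : ℤ) : ℝ) ≤ (R.y1 δ : ℝ) := by push_cast; rw [c2]; linarith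
    exact_mod_cast this
  · have h1 : 4 * (R.A + R.B) / d ≤ (⌈4 * (R.A + R.B) / d⌉₊ : ℝ) := Nat.le_ceil _
    have h2 : (((ce δ z).1 + n - R.x0 δ : ℤ) : ℝ) ≤
        ((⌈4 * (R.A + R.B) / d⌉₊ * (2 * n) : ℤ) : ℝ) := by
      push_cast
      rw [c1]
      have h3 : (⌊z.re / δ⌋ : ℝ) + n - R.x0 δ ≤ (R.A + R.B) / δ := by
        rw [add_div]; linarith
      have h4 : (R.A + R.B) / δ ≤ (4 * (R.A + R.B) / d) * (2 * n) := by
        have h5 : x ≤ 2 * n := by linarith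
        calc (R.A + R.B) / δ = (4 * (R.A + R.B) / d) * x := by rw [hx]; field_simp
          _ ≤ _ := mul_le_mul_of_nonneg_left h5 (by positivity)
      have h6 : (4 * (R.A + R.B) / d) * (2 * n) ≤ (⌈4 * (R.A + R.B) / d⌉₊ : ℝ) * (2 * n) :=
        mul_le_mul_of_nonneg_right h1 (by positivity)
      linarith
    exact_mod_cast h2

theorem near_pt {z : ℂ} {δ r : ℝ} (hδ : 0 < δ) {m : ℕ} (hm : (m : ℝ) + 1 ≤ r / (2 * δ)) {v : Vtx}
    (hv : inR ((ce δ z).1 - m) ((ce δ z).1 + m) ((ce δ z).2 - m) ((ce δ z).2 + m) v) :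
    dist z (pt δ v) ≤ r := by
  have f1 : (⌊z.re / δ⌋ : ℝ) ≤ z.re / δ := Int.floor_le _
  have f2 : z.re / δ < (⌊z.re / δ⌋ : ℝ) + 1 := Int.lt_floor_add_one _
  have f3 : (⌊z.im / δ⌋ : ℝ) ≤ z.im / δ := Int.floor_le _
  have f4 : z.im / δ < (⌊z.im / δ⌋ : ℝ) + 1 := Int.lt_floor_add_one _
  obtain ⟨⟨v1, v2⟩, v3, v4⟩ := hv
  have e1 : (ce δ z).1 = ⌊z.re / δ⌋ := rfl
  have e2 : (ce δ z).2 = ⌊z.im / δ⌋ - 1 := rfl
  rw [e1] at v1 v2
  rw [e2] at v3 v4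
  have w1 : (⌊z.re / δ⌋ : ℝ) - m ≤ v.1 := by exact_mod_cast v1
  have w2 : (v.1 : ℝ) ≤ (⌊z.re / δ⌋ : ℝ) + m := by exact_mod_cast v2
  have w3 : (⌊z.im / δ⌋ : ℝ) - 1 - m ≤ v.2 := by exact_mod_cast v3
  have w4 : (v.2 : ℝ) ≤ (⌊z.im / δ⌋ : ℝ) - 1 + m := by exact_mod_cast v4
  have g1 : |z.re / δ - v.1| ≤ m + 1 := by rw [abs_le]; constructor <;> linarith
  have g2 : |z.im / δ - (v.2 + 1)| ≤ m + 1 := by rw [abs_le]; constructor <;> linarith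
  have k1 : |(z - pt δ v).re| ≤ δ * (m + 1) := by
    have e : (z - pt δ v).re = δ * (z.re / δ - v.1) := by
      rw [Complex.sub_re, mul_sub, mul_div_cancel₀ _ hδ.ne']; rfl
    rw [e, abs_mul, abs_of_pos hδ]
    exact mul_le_mul_of_nonneg_left g1 hδ.le
  have k2 : |(z - pt δ v).im| ≤ δ * (m + 1) := by
    have e : (z - pt δ v).im = δ * (z.im / δ - (v.2 + 1)) := by
      rw [Complex.sub_im, mul_sub, mul_div_cancel₀ _ hδ.ne']; rfl
    rw [e, abs_mul, abs_of_pos hδ]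
    exact mul_le_mul_of_nonneg_left g2 hδ.le
  rw [Complex.dist_eq]
  refine (Complex.norm_le_abs_re_add_abs_im _).trans ?_
  rw [le_div_iff₀ (by positivity)] at hm
  linarith

theorem one_low_lat {R : Rect} {d : ℝ} (hd0 : 0 < d) : ∃ a : ℝ, 0 < a ∧ ∀ (z : ℂ) (r δ : ℝ),
    Away R z d → 0 < r → 4 * r ≤ d → 0 < δ → 8 * δ ≤ r →
    a * r ^ (5 / 48 : ℝ) ≤ Pr P (R.edges δ) (fun F => hd z (clus R δ F) ≤ r) := by
  obtain ⟨a, ha, h⟩ := clu_box ⌈4 * (R.A + R.B) / d⌉₊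
  refine ⟨a * (1 / d) ^ (5 / 48 : ℝ), by positivity, ?_⟩
  intro z r δ hz hr hrd hδ hδr
  obtain ⟨n, n1, n2, k0, k1, k2, k3, k4, k5⟩ := box_geo R hδ (by linarith) hz
  obtain ⟨x, hx⟩ : ∃ x, x = r / (2 * δ) := ⟨_, rfl⟩
  have hx4 : 4 ≤ x := by rw [hx, le_div_iff₀ (by positivity)]; linarith
  have q1 : (⌊x⌋₊ : ℝ) ≤ x := Nat.floor_le (by linarith)
  have q2 : x < (⌊x⌋₊ : ℝ) + 1 := Nat.lt_floor_add_one _
  obtain ⟨m, hm⟩ : ∃ m : ℕ, m + 1 = ⌊x⌋₊ := by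
    have h3 : (0 : ℝ) < ⌊x⌋₊ := by linarith
    have h4 : 0 < ⌊x⌋₊ := by exact_mod_cast h3
    exact ⟨⌊x⌋₊ - 1, by omega⟩
  have hmr : (m : ℝ) + 1 = ⌊x⌋₊ := by exact_mod_cast hm
  have hm1 : 1 ≤ m := by
    have : (1 : ℝ) ≤ m := by linarith
    exact_mod_cast this
  have hxd : x ≤ d / (8 * δ) := by
    rw [hx, div_le_div_iff₀ (by positivity) (by positivity)]
    nlinarith
  have hmn : m ≤ n := by
    have : (m : ℝ) ≤ n := by linarith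
    exact_mod_cast this
  have h5 := h R δ (ce δ z) m n hm1 hmn k0 k1 k2 k3 k4 (by exact_mod_cast k5)
  have hn0 : (0 : ℝ) < n := by
    have : (1 : ℝ) ≤ m := by exact_mod_cast hm1
    have : (m : ℝ) ≤ n := by exact_mod_cast hmn
    linarith
  have h6 : r / d ≤ (m : ℝ) / n := by
    have h7 : x / 2 ≤ m := by linarith
    have h8 : r / d = (x / 2) / (d / (4 * δ)) := by rw [hx]; field_simp; norm_num
    rw [h8]
    exact div_le_div₀ (by positivity) h7 hn0 n2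
  have h7 : a * (1 / d) ^ (5 / 48 : ℝ) * r ^ (5 / 48 : ℝ) ≤
      a * ((m : ℝ) / n) ^ ((5 : ℝ) / 48) := by
    rw [mul_assoc, ← Real.mul_rpow (by positivity) hr.le]
    have e : 1 / d * r = r / d := by ring
    rw [e]
    have := Real.rpow_le_rpow (by positivity) h6 (by norm_num : (0 : ℝ) ≤ 5 / 48)
    exact mul_le_mul_of_nonneg_left this ha.le
  refine h7.trans (h5.trans (Pr_mono w_ok ?_))
  rintro F _ ⟨v, hv1, hv2⟩
  have h8 : pt δ v ∈ (clus R δ F : Set ℂ) := Or.inl ⟨v, hv2, rfl⟩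
  have h9 : infDist z (clus R δ F : Set ℂ) ≤ dist z (pt δ v) := infDist_le_dist_of_mem h8
  exact h9.trans (near_pt hδ (by rw [← hx]; linarith) hv1)

/-- one-point lower bound on a compact set -/
theorem h1_clus (R : Rect) {Q : Set ℂ} (hQ : IsCompact Q) (hQD : Q ⊆ R.D) :
    ∃ c r0 : ℝ, 0 < c ∧ 0 < r0 ∧ ∀ μ : ProbabilityMeasure (NonemptyCompacts ℂ), IsC R μ →
      H1 (μ : Measure (NonemptyCompacts ℂ)) Q (5 / 48) c r0 := by
  obtain ⟨d, hd0, hdD⟩ := hQ.exists_thickening_subset_open (H443B.isOpen_D ⟨R.A, R.B, R.H, R.t,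
    R.hA, R.hB, R.hH, R.ht1, R.ht2⟩) hQD
  obtain ⟨a, ha, h⟩ := one_low_lat (R := R) (d := d / 2) (by positivity)
  refine ⟨a, d / 8, ha, by positivity, ?_⟩
  rintro μ ⟨δ, hδ, hlim, hμ⟩ z hz r hr hr0
  have hzA : Away R z (d / 2) := away_of_ball hd0 ((ball_subset_thickening hz d).trans hdD)
  have hcl : IsClosed {K : NonemptyCompacts ℂ | hd z K ≤ r} :=
    isClosed_le (continuous_hd.comp (by fun_prop : Continuous fun K : NonemptyCompacts ℂ =>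
      ((z, K) : ℂ × NonemptyCompacts ℂ))) continuous_const
  refine lim_closed_ge (S := fun i => R.edges (δ i)) (K := fun i => clus R (δ i)) hμ hcl ?_
  filter_upwards [hlim.eventually_lt_const (show (0 : ℝ) < r / 8 by positivity)] with i hi
  exact h z r (δ i) hzA hr (by linarith) (hδ i) (by linarith)

end Pool.Agent.Run7.h885.CL
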