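import Pool.Agent.Run7.h885.CL.Up
import Pool.Agent.H389R2.CD.Low
import Pool.Agent.H985R3.IL.IL2

/-!
The wired cluster meets a box: lower bound for the probability, on the lattice.
-/

set_option maxHeartbeats 1000000

namespace Pool.Agent.Run7.h885.CL

open H974 H934E Pool.Agent.H160R2.CV Pool.Agent.H160R2.CV.Quad Pool.Agent.H389R2.CD

theorem ar_le_mul {m n : ℕ} (hmn : m ≤ n) : ar n ≤ ar m * barm (1 / 2) m n := by
  have h1 : ar n = Pr P (boxE n) (Arm n) := rfl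
  rw [h1]
  have hd : Disjoint (bo (0, 0) m) (bo (0, 0) n \ bo (0, 0) m) := Finset.disjoint_sdiff
  refine le_trans (Pr_mono okP (B := fun F => LA (0, 0) m F ∧ Cr (0, 0) m n F) ?_)
    ((indep2 (boxE n) _ _ hd (LA_inc _ m) (Cr_inc _ m n) (LA_loc (Finset.Subset.refl _))
      Cr_loc).trans ?_)
  · rintro F _ ⟨v, hv, hr⟩
    have hf : Far (0, 0) n F := by
      refine ⟨v, ?_, hr.mono Set.inter_subset_left⟩
      unfold onB inR at hv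
      unfold nv
      simp only [Prod.fst_sub, Prod.snd_sub]
      omega
    exact ⟨LA_of_far hmn hf, Cr_of_far hf⟩
  · exact mul_le_mul (pr_LA _ _ _) (pr_Cr _ _ _ _) (Pr_nonneg okP _ _) (ar_pos _).le

/-- Box-to-boundary probabilities, lower bound. -/
theorem barm_ge : ∃ c : ℝ, 0 < c ∧ ∀ r n : ℕ, 1 ≤ r → r ≤ n →
    c * ((r : ℝ) / n) ^ ((5 : ℝ) / 48) ≤ barm (1 / 2) r n := by
  obtain ⟨c0, C0, hc0, hC0, har⟩ := Pool.Agent.H160R2.SA.arSharp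
  refine ⟨c0 / C0, by positivity, fun r n hr hrn => ?_⟩
  have h1 := ar_le_mul hrn
  have h2 := (har n (by omega)).1
  have h3 := (har r hr).2
  have hr0 : (0 : ℝ) < r := by exact_mod_cast hr
  have hn0 : (0 : ℝ) < n := hr0.trans_le (by exact_mod_cast hrn)
  have hb := barm_nonneg (q := 1 / 2) (by norm_num) (by norm_num) r n
  have h4 : c0 * (n : ℝ) ^ (-(5 / 48 : ℝ)) ≤ (C0 * (r : ℝ) ^ (-(5 / 48 : ℝ))) *
      barm (1 / 2) r n := h2.trans (h1.trans (mul_le_mul_of_nonneg_right h3 hb))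
  have e1 : (r : ℝ) ^ (-(5 / 48 : ℝ)) = ((r : ℝ) ^ ((5 : ℝ) / 48))⁻¹ :=
    Real.rpow_neg hr0.le _
  have e2 : (n : ℝ) ^ (-(5 / 48 : ℝ)) = ((n : ℝ) ^ ((5 : ℝ) / 48))⁻¹ :=
    Real.rpow_neg hn0.le _
  have e4 : ((r : ℝ) / n) ^ ((5 : ℝ) / 48) = (r : ℝ) ^ ((5 : ℝ) / 48) / (n : ℝ) ^ ((5 : ℝ) / 48) :=
    Real.div_rpow hr0.le hn0.le _
  have p2 : (0 : ℝ) < (r : ℝ) ^ ((5 : ℝ) / 48) := by positivity
  have p3 : (0 : ℝ) < (n : ℝ) ^ ((5 : ℝ) / 48) := by positivity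
  rw [e1, e2] at h4
  rw [e4]
  have h5 := mul_le_mul_of_nonneg_right h4 (show (0 : ℝ) ≤ (r : ℝ) ^ ((5 : ℝ) / 48) / C0 by
    positivity)
  calc c0 / C0 * ((r : ℝ) ^ ((5 : ℝ) / 48) / (n : ℝ) ^ ((5 : ℝ) / 48))
      = c0 * ((n : ℝ) ^ ((5 : ℝ) / 48))⁻¹ * ((r : ℝ) ^ ((5 : ℝ) / 48) / C0) := by
        field_simp
    _ ≤ _ := h5
    _ = barm (1 / 2) r n := by field_simp

/-- translation of a box -/
theorem boxE_sub {c : Vtx} {N : ℕ} {S : Finset Edg} (h : bo c N ⊆ S) :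
    boxE N ⊆ (trl (-c.1) (-c.2)).mp S := by
  have e : boxE N = (trl (-c.1) (-c.2)).mp (bo c N) := by
    unfold bo boxE
    rw [trl_RE]
    congr 1 <;> ring
  rw [e]
  exact LSym.mp_mono _ h

theorem pr_Ex1_ge {c : Vtx} {m N : ℕ} {S : Finset Edg} (h : bo c N ⊆ S) :
    barm (1 / 2) m N ≤ Pr P S (Ex1 c m N) := by
  have h1 := LSym.pr (trl (-c.1) (-c.2)) (1 / 2) S (BArm m N)
  have h2 := pr_BArm (1 / 2) (r := m) (boxE_sub h)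
  rw [h2] at h1
  exact h1.le

/-- the circuit around `c` -/
def CiT (c : Vtx) (n : ℕ) (F : Finset Edg) : Prop :=
  Circ n ((3 * n : ℕ) : ℤ) ((trl (-c.1) (-c.2)).mp F)

theorem pr_CiT {c : Vtx} {n : ℕ} (hn : 1 ≤ n) {S : Finset Edg} (h : bo c (3 * n) ⊆ S) :
    kap ≤ Pr P S (CiT c n) := by
  have h1 := LSym.pr (trl (-c.1) (-c.2)) (1 / 2) S (Circ n ((3 * n : ℕ) : ℤ))
  have h2 := pr_CircP (P := fun _ => (1 / 2 : ℝ)) (fun _ => by norm_num) (fun _ => le_rfl)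
    hn (boxE_sub h)
  rw [h1] at h2
  exact h2

theorem inc_Ex1 (S : Finset Edg) (c : Vtx) (m N : ℕ) : IncrE S (Ex1 c m N) :=
  fun _ _ h _ hF => hF.mono (LSym.mp_mono _ h)

theorem inc_CiT (S : Finset Edg) (c : Vtx) (n : ℕ) : IncrE S (CiT c n) :=
  fun _ _ h _ hF => hF.mono (LSym.mp_mono _ h)

/-- gluing -/
theorem glue_clu (R : Rect) {δ : ℝ} {F : Finset Edg} {c : Vtx} {m n : ℕ} (hmn : m ≤ n)
    (hn : 1 ≤ n) (h1 : Ex1 c m (3 * n) F) (h2 : CiT c n F)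
    (h3 : LRc (R.x0 δ) (c.1 + n) (c.2 - n) (c.2 + n) F) (hx : R.x0 δ ≤ 0)
    (hc : R.x0 δ ≤ c.1 - 3 * n) (hy0 : 0 ≤ c.2 - n) (hy1 : c.2 + n ≤ R.y1 δ) :
    ∃ v : Vtx, inR (c.1 - m) (c.1 + m) (c.2 - m) (c.2 + m) v ∧ v ∈ R.clu δ F := by
  set g := trl (-c.1) (-c.2) with hg
  have hnz : (1 : ℤ) ≤ n := by exact_mod_cast hn
  have hmn' : (m : ℤ) ≤ n := by exact_mod_cast hmn
  obtain ⟨z, hz⟩ := circ_meet (by positivity) (by push_cast; omega) h2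
  obtain ⟨u, v, hu, hv, hr⟩ := h1
  have m1 := hz u v (by unfold inR at hu ⊢; omega) hv.2 hr
  obtain ⟨y, y', hy, hy', hr'⟩ := h3
  have hr2 : Reach (↑(g.mp F) : Set Edg) (g.ψ (R.x0 δ, y)) (g.ψ (c.1 + n, y')) := by
    rw [LSym.coe_mp]
    exact (g.reach hr').mono (Set.image_mono Set.inter_subset_left)
  rw [hg, trl_ψ, trl_ψ, ← hg] at hr2
  obtain ⟨w, k1, k2, k3⟩ := first_exit (a := -((3 * n : ℕ) : ℤ)) (b := ((3 * n : ℕ) : ℤ))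
    (c := -((3 * n : ℕ) : ℤ)) (d := ((3 * n : ℕ) : ℤ))
    (by unfold inR; push_cast; omega) hr2.symm (by push_cast; omega)
  have m2 := hz _ w (by unfold inR; simp only; omega) k2 k3
  have m3 : Reach (↑(g.mp F) : Set Edg) (g.ψ (R.x0 δ, y)) (g.ψ (u.1 + c.1, u.2 + c.2)) := by
    rw [hg, trl_ψ, trl_ψ, ← hg]
    have e : (u.1 + c.1 + -c.1, u.2 + c.2 + -c.2) = u := by
      ext <;> simp
    rw [e]
    exact hr2.trans ((m2.mono Set.inter_subset_left).trans (m1.mono Set.inter_subset_left).symm)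
  rw [LSym.coe_mp, LSym.reach_iff] at m3
  refine ⟨(u.1 + c.1, u.2 + c.2), ?_, ?_⟩
  · unfold inR at hu ⊢
    simp only
    omega
  · show Reach (↑F ∪ R.wired δ) (0, 0) (u.1 + c.1, u.2 + c.2)
    have m4 := wired_left R (δ := δ) hx (y := y) (by omega) (by omega)
    exact (m4.mono Set.subset_union_right).trans (m3.mono Set.subset_union_left)

/-- three increasing events -/
theorem harris3 {S : Finset Edg} {A B C : Finset Edg → Prop} (hA : IncrE S A) (hB : IncrE S B)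
    (hC : IncrE S C) {a b c : ℝ} (ha0 : 0 ≤ a) (hb0 : 0 ≤ b) (hc0 : 0 ≤ c) (ha : a ≤ Pr P S A)
    (hb : b ≤ Pr P S B) (hc : c ≤ Pr P S C) :
    a * b * c ≤ Pr P S (fun F => (A F ∧ B F) ∧ C F) := by
  have i1 := Pr_harris okP hA hB
  have i2 := Pr_harris okP (S := S) (A := fun F => A F ∧ B F) (B := C)
    (fun F G h hG hF => ⟨hA F G h hG hF.1, hB F G h hG hF.2⟩) hC
  have p1 : 0 ≤ Pr P S A := ha0.trans ha
  have p2 : 0 ≤ Pr P S C := hc0.trans hc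
  have p3 : 0 ≤ Pr P S A * Pr P S B := mul_nonneg p1 (hb0.trans hb)
  calc a * b * c ≤ (Pr P S A * Pr P S B) * Pr P S C := by gcongr
    _ ≤ Pr P S (fun F => A F ∧ B F) * Pr P S C := by gcongr
    _ ≤ _ := i2

theorem third_pow {x : ℝ} (hx : 0 ≤ x) {m n : ℕ} (hn : 1 ≤ n) :
    x / 3 * ((m : ℝ) / n) ^ ((5 : ℝ) / 48) ≤
      x * ((m : ℝ) / ((3 * n : ℕ) : ℝ)) ^ ((5 : ℝ) / 48) := by
  have hn0 : (0 : ℝ) < n := by exact_mod_cast hn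
  have e : (m : ℝ) / ((3 * n : ℕ) : ℝ) = (1 / 3) * ((m : ℝ) / n) := by
    push_cast; field_simp
  rw [e, Real.mul_rpow (by norm_num) (by positivity)]
  have h : (1 / 3 : ℝ) ≤ (1 / 3 : ℝ) ^ ((5 : ℝ) / 48) := by
    calc (1 / 3 : ℝ) = (1 / 3) ^ (1 : ℝ) := (Real.rpow_one _).symm
      _ ≤ (1 / 3 : ℝ) ^ ((5 : ℝ) / 48) :=
        Real.rpow_le_rpow_of_exponent_ge (by norm_num) (by norm_num) (by norm_num)
  calc x / 3 * ((m : ℝ) / n) ^ ((5 : ℝ) / 48)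
      = x * ((1 / 3) * ((m : ℝ) / n) ^ ((5 : ℝ) / 48)) := by ring
    _ ≤ _ := by gcongr

theorem sides (R : Rect) {δ : ℝ} {c : Vtx} {n : ℕ} (hx0 : R.x0 δ ≤ c.1 - 3 * n)
    (hx1 : c.1 + 3 * n ≤ R.x1 δ) (hy0 : 0 ≤ c.2 - 3 * n) (hy1 : c.2 + 3 * n ≤ R.y1 δ) :
    bo c (3 * n) ⊆ R.edges δ ∧ LRE (R.x0 δ) (c.1 + n) (c.2 - n) (c.2 + n) ⊆ R.edges δ := by
  rw [R.edges_eq]
  constructor
  · unfold bo
    exact RE_subset (by push_cast; omega) (by push_cast; omega) (by push_cast; omega)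
      (by push_cast; omega)
  · exact LRE_subset_RE.trans (RE_subset le_rfl (by omega) (by omega) (by omega))

theorem pr_long {k : ℕ} {a2 : ℝ} (hrsw : ∀ w n : ℤ, 0 < w → 1 ≤ n → w ≤ k * n →
    a2 ≤ hh (1/2) w n) {S : Finset Edg} {x : ℤ} {c : Vtx} {n : ℕ} (hn : 1 ≤ n)
    (hL : LRE x (c.1 + n) (c.2 - n) (c.2 + n) ⊆ S) (hx : x < c.1 + n)
    (hk2 : c.1 + n - x ≤ k * (2 * n)) : a2 ≤ Pr P S (LRc x (c.1 + n) (c.2 - n) (c.2 + n)) := by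
  have h1 := pr_LRc (1 / 2) hL
  unfold P
  rw [h1]
  have e : (c.2 + n - (c.2 - n) : ℤ) = 2 * n := by ring
  rw [e]
  exact hrsw _ _ (by omega) (by omega) hk2

/-- the wired cluster meets a box -/
theorem clu_box (k : ℕ) : ∃ a : ℝ, 0 < a ∧ ∀ (R : Rect) (δ : ℝ) (c : Vtx) (m n : ℕ), 1 ≤ m →
    m ≤ n → R.x0 δ ≤ 0 → R.x0 δ ≤ c.1 - 3 * n → c.1 + 3 * n ≤ R.x1 δ → 0 ≤ c.2 - 3 * n →
    c.2 + 3 * n ≤ R.y1 δ → c.1 + n - R.x0 δ ≤ k * (2 * n) →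
    a * ((m : ℝ) / n) ^ ((5 : ℝ) / 48) ≤ Pr P (R.edges δ)
      (fun F => ∃ v : Vtx, inR (c.1 - m) (c.1 + m) (c.2 - m) (c.2 + m) v ∧ v ∈ R.clu δ F) := by
  obtain ⟨a1, ha1, hb⟩ := barm_ge
  obtain ⟨a2, ha2, hrsw⟩ := H985IL.IL2.rswK k
  have hk := kap_pos
  refine ⟨(a1 / 3) * kap * a2, by positivity, ?_⟩
  intro R δ c m n hm hmn hx hx0 hx1 hy0 hy1 hk2
  have hn : 1 ≤ n := hm.trans hmn
  obtain ⟨hbo, hL⟩ := sides R hx0 hx1 hy0 hy1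
  have e1 := (third_pow ha1.le hn).trans ((hb m (3 * n) hm (by omega)).trans
    (pr_Ex1_ge (m := m) hbo))
  have e2 := pr_CiT hn hbo
  have e3 := pr_long hrsw hn hL (by omega) hk2
  have e4 := harris3 (inc_Ex1 (R.edges δ) c m (3 * n)) (inc_CiT (R.edges δ) c n)
    (LRc_incr _ _ _ _ _) (by positivity) hk.le ha2.le e1 e2 e3
  have e5 : (a1 / 3) * kap * a2 * ((m : ℝ) / n) ^ ((5 : ℝ) / 48) =
      a1 / 3 * ((m : ℝ) / n) ^ ((5 : ℝ) / 48) * kap * a2 := by ring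
  rw [e5]
  refine e4.trans (Pr_mono okP ?_)
  rintro F _ ⟨⟨k1, k2⟩, k3⟩
  exact glue_clu R hmn hn k1 k2 k3 hx hx0 (by omega) (by omega)

end Pool.Agent.Run7.h885.CL
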