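import Pool.Agent.Run7.h885.CL.Up

/-!
The wired cluster meets two discs: upper bound for the probability, on the lattice and in the
limit.
-/

set_option maxHeartbeats 1000000

namespace Pool.Agent.Run7.h885.CL

open H974 H934E Pool.Agent.H160R2.CV Pool.Agent.H160R2.CV.Quad Pool.Agent.H389R2.CD MeasureTheory
  TopologicalSpace Filter Topology

theorem qk_le {P X k q : ℝ} (hP : 0 ≤ P) (hX : 0 ≤ X) (hk : 1 ≤ k) (hq0 : 0 ≤ q) (hq1 : q ≤ 1)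
    (h : P ≤ k * X) : P ^ q ≤ k * X ^ q := by
  calc P ^ q ≤ (k * X) ^ q := Real.rpow_le_rpow hP h hq0
    _ = k ^ q * X ^ q := Real.mul_rpow (by positivity) hX
    _ ≤ k * X ^ q := by
        apply mul_le_mul_of_nonneg_right _ (by positivity)
        calc k ^ q ≤ k ^ (1 : ℝ) := Real.rpow_le_rpow_of_exponent_le hk hq1
          _ = k := Real.rpow_one _

theorem frac_le {x a ρ M k c : ℝ} (ha : 0 < a) (hk : 0 < k) (hc : 0 ≤ c) (hx : 0 ≤ x)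
    (h1 : ρ ≤ c * x) (hM : a / k ≤ M) : ρ / M ≤ c * k * (x / a) := by
  have hM0 : 0 < M := lt_of_lt_of_le (by positivity) hM
  rw [div_le_iff₀ hM0]
  calc ρ ≤ c * x := h1
    _ = c * k * (x / a) * (a / k) := by field_simp
    _ ≤ c * k * (x / a) * M := mul_le_mul_of_nonneg_left hM (by positivity)

theorem num_three {x a b ρ M N K m : ℝ} (hx : 0 < x) (ha : 0 < a) (hb : 0 < b) (h0 : 0 ≤ ρ)
    (h1 : ρ ≤ 2 * x) (hM : a / 5 ≤ M) (hN : b / 2 ≤ N) (hK0 : 0 ≤ K) (hK : K ≤ 5 / 2 * a)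
    (hm : 0 < m) (hma : m ≤ a) :
    ρ / M * (ρ / M * (K / N)) ≤ 500 * ((x / b) * (x / m)) := by
  have hM0 : 0 < M := lt_of_lt_of_le (by positivity) hM
  have hN0 : 0 < N := lt_of_lt_of_le (by positivity) hN
  have k1 := frac_le (a := a) (c := 2) ha (by norm_num) (by norm_num) hx.le h1 hM
  have k2 := frac_le (a := b) (x := a) (c := 5 / 2) hb (by norm_num) (by norm_num) ha.le hK hN
  have k3 : 0 ≤ ρ / M := by positivity
  have k4 : 0 ≤ K / N := by positivity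
  calc ρ / M * (ρ / M * (K / N)) ≤ (2 * 5 * (x / a)) * ((2 * 5 * (x / a)) *
        (5 / 2 * 2 * (a / b))) := by gcongr
    _ = 500 * ((x / b) * (x / a)) := by field_simp; norm_num
    _ ≤ _ := by gcongr

theorem num_two {x b ρ M m : ℝ} (hx : 0 < x) (hb : 0 < b) (h0 : 0 ≤ ρ)
    (h1 : ρ ≤ 2 * x) (hM : b / 16 ≤ M) (hm : 0 < m) (hma : m ≤ b) :
    ρ / M * (ρ / M) ≤ 1024 * ((x / b) * (x / m)) := by
  have hM0 : 0 < M := lt_of_lt_of_le (by positivity) hM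
  have k1 := frac_le (a := b) (c := 2) hb (by norm_num) (by norm_num) hx.le h1 hM
  have k3 : 0 ≤ ρ / M := by positivity
  calc ρ / M * (ρ / M) ≤ (2 * 16 * (x / b)) * (2 * 16 * (x / b)) := by gcongr
    _ = 1024 * ((x / b) * (x / b)) := by ring
    _ ≤ _ := by gcongr

/-- the distances to the sides -/
def Away (R : Rect) (z : ℂ) (d : ℝ) : Prop :=
  d ≤ z.re + R.A ∧ d ≤ z.im ∧ d ≤ R.H - z.im ∧ d ≤ R.B - z.re

theorem pow_three {C A B Y x y : ℝ} (hC : 0 < C) (hA : 0 ≤ A) (hB : 0 ≤ B) (hY : 0 ≤ Y)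
    (hx0 : 0 ≤ x) (hx : x ≤ C * A ^ ((5 : ℝ) / 48)) (hy0 : 0 ≤ y)
    (hy : y ≤ C * B ^ ((5 : ℝ) / 48)) (h : A * (A * B) ≤ 500 * Y) :
    x * (x * y) ≤ (500 * C ^ 3 + 1024 * C ^ 2) * Y ^ ((5 : ℝ) / 48) := by
  have h9 := qk_le (q := (5 : ℝ) / 48) (by positivity) hY (by norm_num) (by norm_num)
    (by norm_num) h
  have h10 : (A * (A * B)) ^ ((5 : ℝ) / 48) =
      A ^ ((5 : ℝ) / 48) * (A ^ ((5 : ℝ) / 48) * B ^ ((5 : ℝ) / 48)) := by
    rw [Real.mul_rpow hA (by positivity), Real.mul_rpow hA hB]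
  rw [h10] at h9
  calc x * (x * y)
      ≤ (C * A ^ ((5 : ℝ) / 48)) * ((C * A ^ ((5 : ℝ) / 48)) * (C * B ^ ((5 : ℝ) / 48))) := by
        gcongr
    _ = C ^ 3 * (A ^ ((5 : ℝ) / 48) * (A ^ ((5 : ℝ) / 48) * B ^ ((5 : ℝ) / 48))) := by ring
    _ ≤ C ^ 3 * (500 * Y ^ ((5 : ℝ) / 48)) := by gcongr
    _ ≤ _ := by
      have : 0 ≤ 1024 * C ^ 2 * Y ^ ((5 : ℝ) / 48) := by positivity
      linarith

theorem pow_two {C A Y x : ℝ} (hC : 0 < C) (hA : 0 ≤ A) (hY : 0 ≤ Y)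
    (hx0 : 0 ≤ x) (hx : x ≤ C * A ^ ((5 : ℝ) / 48)) (h : A * A ≤ 1024 * Y) :
    x * x ≤ (500 * C ^ 3 + 1024 * C ^ 2) * Y ^ ((5 : ℝ) / 48) := by
  have h9 := qk_le (q := (5 : ℝ) / 48) (by positivity) hY (by norm_num) (by norm_num)
    (by norm_num) h
  rw [Real.mul_rpow hA hA] at h9
  calc x * x
      ≤ (C * A ^ ((5 : ℝ) / 48)) * (C * A ^ ((5 : ℝ) / 48)) := by gcongr
    _ = C ^ 2 * (A ^ ((5 : ℝ) / 48) * A ^ ((5 : ℝ) / 48)) := by ring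
    _ ≤ C ^ 2 * (1024 * Y ^ ((5 : ℝ) / 48)) := by gcongr
    _ ≤ _ := by
      have : 0 ≤ 500 * C ^ 3 * Y ^ ((5 : ℝ) / 48) := by positivity
      linarith

theorem two_lat : ∃ C : ℝ, 0 < C ∧ ∀ (R : Rect) (z w : ℂ) (d s δ : ℝ), 0 < s → 0 < δ →
    16 * δ ≤ s → 64 * s ≤ d → Away R z d → Away R w d → 40 * s ≤ dist z w →
    Pr P (R.edges δ) (fun F => (cset R δ F ∩ sq z s).Nonempty ∧
      (cset R δ F ∩ sq w s).Nonempty) ≤
      C * ((s / d) * (s / min (dist z w) d)) ^ ((5 : ℝ) / 48) := by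
  obtain ⟨C, hC, hb⟩ := barm_le'
  refine ⟨500 * C ^ 3 + 1024 * C ^ 2, by positivity, ?_⟩
  intro R z w d s δ hs hδ hδs hsd hz hw hzw
  have hdpos : 0 < d := by linarith
  have hDpos : 0 < dist z w := by linarith
  obtain ⟨K, hK, hK1, hK2⟩ := nv_ce hδ z w
  obtain ⟨x, hx⟩ : ∃ x, x = s / δ := ⟨_, rfl⟩
  obtain ⟨a, ha⟩ : ∃ a, a = dist z w / δ := ⟨_, rfl⟩
  obtain ⟨b, hbd⟩ : ∃ b, b = d / δ := ⟨_, rfl⟩
  rw [← ha] at hK1 hK2
  have hx1 : 16 ≤ x := by rw [hx, le_div_iff₀ hδ]; exact hδs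
  have hax : 40 * x ≤ a := by
    rw [hx, ha, mul_div_assoc', div_le_div_iff_of_pos_right hδ]; exact hzw
  have hbx : 64 * x ≤ b := by
    rw [hx, hbd, mul_div_assoc', div_le_div_iff_of_pos_right hδ]; exact hsd
  obtain ⟨ρ, hρ⟩ : ∃ ρ : ℕ, ρ = ⌈x⌉₊ + 2 := ⟨_, rfl⟩
  have hρ1 : (ρ : ℝ) ≤ 2 * x := by
    have := Nat.ceil_lt_add_one (by linarith : 0 ≤ x)
    rw [hρ]; push_cast; linarith
  have hf : b < (⌊b⌋₊ : ℝ) + 1 := Nat.lt_floor_add_one _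
  obtain ⟨N, hN⟩ : ∃ N : ℕ, N + 3 = ⌊b⌋₊ := by
    have : (3 : ℝ) < ⌊b⌋₊ := by linarith
    have h2 : 3 < ⌊b⌋₊ := by exact_mod_cast this
    exact ⟨⌊b⌋₊ - 3, by omega⟩
  have hNr : (N : ℝ) + 3 = ⌊b⌋₊ := by exact_mod_cast hN
  have hN2 : b / 2 ≤ N := by linarith
  have hKb : 19 ≤ K := by
    have hKbig : (19 : ℝ) ≤ K := by linarith
    exact_mod_cast hKbig
  obtain ⟨M, hM1, hM2⟩ : ∃ M : ℕ, 2 * M < K ∧ K ≤ 2 * M + 2 := ⟨(K - 1) / 2, by omega, by omega⟩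
  have hM3 : (K : ℝ) ≤ 2 * M + 2 := by exact_mod_cast hM2
  have hM4 : a / 5 ≤ M := by linarith
  have hρM : ρ ≤ M := by
    have : (ρ : ℝ) ≤ M := by linarith
    exact_mod_cast this
  have hρN : ρ ≤ N := by
    have : (ρ : ℝ) ≤ N := by linarith
    exact_mod_cast this
  have hρ0 : 1 ≤ ρ := by omega
  have hρ0' : (0 : ℝ) ≤ ρ := Nat.cast_nonneg _
  have es : ⌈s / δ⌉₊ + 2 = ρ := by rw [hρ, hx]
  have ed : ⌊d / δ⌋₊ = N + 3 := by rw [hN, hbd]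
  have ha0 : 0 < a := by linarith
  have hb0 : 0 < b := by linarith
  have hx0 : 0 < x := by linarith
  have hmn0 : 0 < min a b := lt_min ha0 hb0
  have hXe : (s / d) * (s / min (dist z w) d) = (x / b) * (x / min a b) := by
    have e1 : min a b = min (dist z w) d / δ := by
      rw [ha, hbd, min_div_div_right hδ.le]
    have hmin : 0 < min (dist z w) d := lt_min hDpos hdpos
    rw [e1, hx, hbd]
    field_simp
  rw [hXe]
  have hX0 : 0 ≤ (x / b) * (x / min a b) := by positivity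
  obtain ⟨z1, z2, z3, -⟩ := hz
  obtain ⟨w1, w2, w3, -⟩ := hw
  have n1 := barm_nonneg (q := 1 / 2) (by norm_num) (by norm_num)
  by_cases hKN : 2 * K ≤ N
  · have hMN : M ≤ N := by omega
    refine (Pr_mono w_ok (B := fun F => Cr (ce δ z) ρ M F ∧ (Cr (ce δ w) ρ M F ∧
      Cr (ce δ z) (2 * K) N F)) ?_).trans ((three_cr hK hM1).trans ?_)
    · rintro F _ ⟨h1, h2⟩
      exact ⟨cset_Cr R hs (by linarith) z1 z2 z3 hδ hδs h1 es.le hρM (by omega),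
        cset_Cr R hs (by linarith) w1 w2 w3 hδ hδs h2 es.le hρM (by omega),
        cset_Cr R hs (by linarith) z1 z2 z3 hδ hδs h1 (by omega) hKN (by omega)⟩
    refine pow_three hC (by positivity) (by positivity) hX0 (n1 _ _) (hb ρ M hρ0 hρM)
      (n1 _ _) (hb (2 * K) N (by omega) hKN) ?_
    push_cast
    exact num_three hx0 ha0 hb0 hρ0' hρ1 hM4 hN2 (by positivity) (by linarith) hmn0
      (min_le_left _ _)
  · push Not at hKN
    obtain ⟨M', hM'⟩ : ∃ M' : ℕ, M' = min M N := ⟨_, rfl⟩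
    have hN16 : 15 < N := by
      have : (15 : ℝ) < N := by linarith
      exact_mod_cast this
    have hM'1 : N ≤ 8 * M' := by omega
    have hM'1r : (N : ℝ) ≤ 8 * M' := by exact_mod_cast hM'1
    have hρM' : ρ ≤ M' := by omega
    refine (Pr_mono w_ok (B := fun F => Cr (ce δ z) ρ M' F ∧ Cr (ce δ w) ρ M' F) ?_).trans
      ((two_cr hK (by omega : 2 * M' < K)).trans ?_)
    · rintro F _ ⟨h1, h2⟩
      exact ⟨cset_Cr R hs (by linarith) z1 z2 z3 hδ hδs h1 es.le hρM' (by omega),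
        cset_Cr R hs (by linarith) w1 w2 w3 hδ hδs h2 es.le hρM' (by omega)⟩
    exact pow_two hC (by positivity) hX0 (n1 _ _) (hb ρ M' hρ0 hρM')
      (num_two hx0 hb0 hρ0' hρ1 (by linarith) hmn0 (min_le_right _ _))

end Pool.Agent.Run7.h885.CL
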