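import Pool.Agent.H389R2.CD.Fin
import Pool.Agent.H160R2.SA.Arm
import Pool.Agent.Run7.h885.FS.TwoDisc

/-!
The wired cluster meets two discs: upper bound for the probability.
-/

set_option maxHeartbeats 1000000

namespace Pool.Agent.Run7.h885.CL

open H974 H934E Pool.Agent.H160R2.CV Pool.Agent.H160R2.CV.Quad Pool.Agent.H389R2.CD MeasureTheory
  TopologicalSpace Filter Topology
open Pool.Agent.Run7.h885.FS (vt nd_bounds)

/-- crossing of an annulus from a path which leaves a larger box -/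
theorem Cr_of_reach {F : Finset Edg} {A : Set Edg} {c : Vtx} {r n N : ℕ} (hnN : n ≤ N)
    (hrn : r ≤ n) (hA : ∀ e ∈ A, e ∉ RE (c.1 - N) (c.1 + N) (c.2 - N) (c.2 + N)) {u v : Vtx}
    (hu : inR (c.1 - r) (c.1 + r) (c.2 - r) (c.2 + r) u)
    (hv : v.1 ≤ c.1 - N ∨ c.1 + N ≤ v.1 ∨ v.2 ≤ c.2 - N ∨ c.2 + N ≤ v.2)
    (h : Reach (↑F ∪ A) u v) : Cr c r n F := by
  have hrn' : (r : ℤ) ≤ n := by exact_mod_cast hrn
  have hnN' : (n : ℤ) ≤ N := by exact_mod_cast hnN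
  obtain ⟨w, k1, k2, k3⟩ := first_exit (a := c.1 - n) (b := c.1 + n) (c := c.2 - n)
    (d := c.2 + n) (u := u) (v := v) (by unfold inR at hu ⊢; omega) h (by omega)
  obtain ⟨u', hu', k4⟩ := last_exit hu k3
  refine ⟨u', w, hu', k1, k2, k4.mono ?_⟩
  rintro e ⟨⟨he | he, he2⟩, he3⟩
  · refine ⟨he, ?_⟩
    rw [Finset.coe_sdiff]
    exact ⟨he2, he3⟩
  · exact absurd (RE_subset (by omega) (by omega) (by omega) (by omega)
      (Finset.mem_coe.mp he2)) (hA e he)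

theorem barm_le' : ∃ C : ℝ, 0 < C ∧ ∀ r n : ℕ, 1 ≤ r → r ≤ n →
    barm (1 / 2) r n ≤ C * ((r : ℝ) / n) ^ ((5 : ℝ) / 48) := by
  obtain ⟨C, hC, h⟩ := Pool.Agent.H389R2.CD.barm_le Pool.Agent.H160R2.SA.arSharp
  refine ⟨C + 3, by positivity, ?_⟩
  intro r n hr hrn
  have hr0 : (0 : ℝ) < r := by exact_mod_cast hr
  have hn0 : (0 : ℝ) < n := hr0.trans_le (by exact_mod_cast hrn)
  have hx : 0 ≤ ((r : ℝ) / n) ^ ((5 : ℝ) / 48) := by positivity
  by_cases h3 : 3 * r ≤ n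
  · refine (h r n hr h3).trans ?_
    nlinarith
  · have h4 : (n : ℝ) ≤ 3 * r := by
      have : n ≤ 3 * r := by omega
      exact_mod_cast this
    have h5 : (1 : ℝ) / 3 ≤ (r : ℝ) / n := by
      rw [div_le_div_iff₀ (by norm_num) hn0]; linarith
    have h6 : (r : ℝ) / n ≤ 1 := by
      rw [div_le_one hn0]; exact_mod_cast hrn
    have h7 : (r : ℝ) / n ≤ ((r : ℝ) / n) ^ ((5 : ℝ) / 48) := by
      calc (r : ℝ) / n = ((r : ℝ) / n) ^ (1 : ℝ) := (Real.rpow_one _).symm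
        _ ≤ _ := Real.rpow_le_rpow_of_exponent_ge (by positivity) h6 (by norm_num)
    have h8 : barm (1 / 2) r n ≤ 1 := H974.barm_le_one (by norm_num) (by norm_num) _ _
    nlinarith

/-- the lattice point near a point of the plane, in the coordinates of the lattice -/
noncomputable def ce (δ : ℝ) (z : ℂ) : Vtx := (⌊z.re / δ⌋, ⌊z.im / δ⌋ - 1)

/-- the cluster meets a small square: crossings of all annuli -/
theorem cset_Cr (R : Rect) {z : ℂ} {ρ s δ : ℝ} (hs : 0 < s) (hsρ : 16 * s ≤ ρ)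
    (h1 : ρ ≤ z.re + R.A) (h2 : ρ ≤ z.im) (h3 : ρ ≤ R.H - z.im) (hδ : 0 < δ) (hδs : 16 * δ ≤ s)
    {F : Finset Edg} (hF : (cset R δ F ∩ sq z s).Nonempty) {m M : ℕ}
    (hm : ⌈s / δ⌉₊ + 2 ≤ m) (hmM : m ≤ M) (hM : M + 3 ≤ ⌊ρ / δ⌋₊) : Cr (ce δ z) m M F := by
  have hρ : 0 < ρ := by linarith
  set c : Vtx := ce δ z with hc
  have hc1 : c.1 = ⌊z.re / δ⌋ := rfl
  have hc2 : c.2 = ⌊z.im / δ⌋ - 1 := rfl
  set r : ℕ := ⌈s / δ⌉₊ + 2 with hr
  set n : ℕ := ⌊ρ / δ⌋₊ - 3 with hn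
  have q1 : 16 ≤ s / δ := by rw [le_div_iff₀ hδ]; exact hδs
  have q2 : 16 * (s / δ) ≤ ρ / δ := by
    rw [← mul_div_assoc]; exact div_le_div_of_nonneg_right hsρ hδ.le
  have r1 : (⌈s / δ⌉₊ : ℝ) < s / δ + 1 := Nat.ceil_lt_add_one (by positivity)
  have r2 : s / δ ≤ (⌈s / δ⌉₊ : ℝ) := Nat.le_ceil _
  have n1 : (⌊ρ / δ⌋₊ : ℝ) ≤ ρ / δ := Nat.floor_le (by positivity)
  have n2 : ρ / δ < (⌊ρ / δ⌋₊ : ℝ) + 1 := Nat.lt_floor_add_one _
  have hn3 : 3 ≤ ⌊ρ / δ⌋₊ := by omega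
  have nR : (n : ℝ) = (⌊ρ / δ⌋₊ : ℝ) - 3 := by rw [hn, Nat.cast_sub hn3]; norm_num
  have rR : (r : ℝ) = (⌈s / δ⌉₊ : ℝ) + 2 := by rw [hr]; push_cast; ring
  have hMn : M ≤ n := by omega
  have f1 : (⌊z.re / δ⌋ : ℝ) ≤ z.re / δ := Int.floor_le _
  have f2 : z.re / δ < (⌊z.re / δ⌋ : ℝ) + 1 := Int.lt_floor_add_one _
  have f3 : (⌊z.im / δ⌋ : ℝ) ≤ z.im / δ := Int.floor_le _
  have f4 : z.im / δ < (⌊z.im / δ⌋ : ℝ) + 1 := Int.lt_floor_add_one _
  have d1 : ρ / δ ≤ z.re / δ + R.A / δ := by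
    rw [← add_div]; exact div_le_div_of_nonneg_right h1 hδ.le
  have d2 : ρ / δ ≤ z.im / δ := div_le_div_of_nonneg_right h2 hδ.le
  have d3 : ρ / δ ≤ R.H / δ - z.im / δ := by
    rw [← sub_div]; exact div_le_div_of_nonneg_right h3 hδ.le
  obtain ⟨w, hw1, hw2, hw3⟩ := hF
  obtain ⟨v, hv, hv1, hv2⟩ := cset_near R hδ.le hw1
  unfold pt at hv1 hv2
  simp only at hv1 hv2
  rw [abs_le] at hv1 hv2
  rw [abs_lt] at hw2 hw3
  have g1 : δ * |(v.1 : ℝ) - z.re / δ| ≤ s + δ := by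
    rw [← abs_of_pos hδ, ← abs_mul, abs_of_pos hδ, mul_sub, mul_div_cancel₀ _ hδ.ne', abs_le]
    constructor <;> linarith
  have g2 : δ * |(v.2 : ℝ) + 1 - z.im / δ| ≤ s + δ := by
    rw [← abs_of_pos hδ, ← abs_mul, abs_of_pos hδ, mul_sub, mul_div_cancel₀ _ hδ.ne', abs_le]
    constructor <;> linarith
  have g3 : |(v.1 : ℝ) - z.re / δ| ≤ s / δ + 1 := by
    rw [show s / δ + 1 = (s + δ) / δ by field_simp, le_div_iff₀ hδ, mul_comm]; exact g1
  have g4 : |(v.2 : ℝ) + 1 - z.im / δ| ≤ s / δ + 1 := by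
    rw [show s / δ + 1 = (s + δ) / δ by field_simp, le_div_iff₀ hδ, mul_comm]; exact g2
  rw [abs_le] at g3 g4
  have hrm : (r : ℤ) ≤ m := by exact_mod_cast hm
  have hin : inR (c.1 - r) (c.1 + r) (c.2 - r) (c.2 + r) v := by
    have k1 : ((c.1 - r : ℤ) : ℝ) ≤ v.1 := by
      push_cast; rw [rR, hc1]; linarith
    have k2 : (v.1 : ℝ) ≤ ((c.1 + r : ℤ) : ℝ) := by
      push_cast; rw [rR, hc1]; linarith
    have k3 : ((c.2 - r : ℤ) : ℝ) ≤ v.2 := by
      push_cast; rw [rR, hc2]; push_cast; linarith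
    have k4 : (v.2 : ℝ) ≤ ((c.2 + r : ℤ) : ℝ) := by
      push_cast; rw [rR, hc2]; push_cast; linarith
    exact ⟨⟨by exact_mod_cast k1, by exact_mod_cast k2⟩, ⟨by exact_mod_cast k3,
      by exact_mod_cast k4⟩⟩
  refine Cr_of_reach (N := n) (A := R.wired δ) (v := (0, 0)) (u := v) hMn hmM ?_ ?_ ?_ hv.symm
  · -- wired edges are outside
    rintro ⟨x, y, b⟩ he hE
    unfold Rect.wired at he
    simp only [Set.mem_ofPred_eq] at he
    have u1 : (c.1 : ℝ) - n ≥ -(R.A / δ) + 2 := by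
      rw [nR, hc1]; linarith
    have u2 : (c.2 : ℝ) - n ≥ 1 := by
      rw [nR, hc2]; push_cast; linarith
    have u3 : (c.2 : ℝ) + n ≤ R.H / δ - 4 := by
      rw [nR, hc2]; push_cast; linarith
    have hx0 : (R.x0 δ : ℝ) ≤ -(R.A / δ) + 1 := by
      unfold Rect.x0
      push_cast
      linarith [Int.floor_le (-(R.A / δ))]
    have hy1 : R.H / δ - 2 ≤ (R.y1 δ : ℝ) := by
      unfold Rect.y1
      push_cast
      linarith [Int.le_ceil (R.H / δ)]
    have v1 : R.x0 δ < c.1 - n := by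
      have : (R.x0 δ : ℝ) < ((c.1 - n : ℤ) : ℝ) := by push_cast; linarith
      exact_mod_cast this
    have v2 : 0 < c.2 - n := by
      have : (0 : ℝ) < ((c.2 - n : ℤ) : ℝ) := by push_cast; linarith
      exact_mod_cast this
    have v3 : c.2 + n < R.y1 δ := by
      have : ((c.2 + n : ℤ) : ℝ) < (R.y1 δ : ℝ) := by push_cast; linarith
      exact_mod_cast this
    cases b
    · rw [mem_RE_false] at hE
      rcases he with ⟨h, _⟩ | h | ⟨h, _⟩
      · exact absurd h (by simp)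
      · omega
      · exact absurd h (by simp)
    · rw [mem_RE_true] at hE
      rcases he with h | ⟨h, _⟩ | h
      · omega
      · exact absurd h (by simp)
      · omega
  · unfold inR at hin ⊢
    omega
  · right; right; left
    have : (0 : ℝ) ≤ ((c.2 - n : ℤ) : ℝ) := by
      push_cast; rw [nR, hc2]; push_cast; linarith
    exact_mod_cast this

theorem nv_ce {δ : ℝ} (hδ : 0 < δ) (z w : ℂ) : ∃ K : ℕ, nv (ce δ z - ce δ w) = K ∧
    (K : ℝ) ≤ dist z w / δ + 1 ∧ dist z w / δ / 2 - 1 ≤ K := by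
  obtain ⟨K, h1, h2, h3⟩ := nd_bounds hδ z w
  refine ⟨K, ?_, h2, h3⟩
  unfold H934F.nd vt at h1
  unfold nv ce
  simp only [Prod.fst_sub, Prod.snd_sub]
  have h4 : max |⌊z.re / δ⌋ - ⌊w.re / δ⌋| |⌊z.im / δ⌋ - ⌊w.im / δ⌋| = (K : ℤ) := h1
  clear h1
  rw [Int.abs_eq_natAbs, Int.abs_eq_natAbs] at h4
  omega

/-- two disjoint annuli -/
theorem two_cr {S : Finset Edg} {x y : Vtx} {K m M : ℕ} (hK : nv (x - y) = K)
    (hM : 2 * M < K) :
    Pr P S (fun F => Cr x m M F ∧ Cr y m M F) ≤ barm (1 / 2) m M * barm (1 / 2) m M := by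
  have hd : Disjoint (bo x M \ bo x m) (bo y M \ bo y m) :=
    Finset.disjoint_of_subset_left Finset.sdiff_subset
      (Finset.disjoint_of_subset_right Finset.sdiff_subset (bo_disj (by omega)))
  refine (indep2 S _ _ hd (Cr_inc x m M) (Cr_inc y m M) Cr_loc Cr_loc).trans ?_
  exact mul_le_mul (pr_Cr _ _ _ _) (pr_Cr _ _ _ _) (Pr_nonneg okP _ _)
    (barm_nonneg (by norm_num) (by norm_num) _ _)

/-- three disjoint annuli -/
theorem three_cr {S : Finset Edg} {x y : Vtx} {K m M N : ℕ} (hK : nv (x - y) = K)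
    (hM : 2 * M < K) :
    Pr P S (fun F => Cr x m M F ∧ (Cr y m M F ∧ Cr x (2 * K) N F)) ≤
      barm (1 / 2) m M * (barm (1 / 2) m M * barm (1 / 2) (2 * K) N) := by
  have hxy := hK
  unfold nv at hxy
  simp only [Prod.fst_sub, Prod.snd_sub] at hxy
  have sy : bo y M ⊆ bo x (2 * K) := by
    intro e he
    obtain ⟨a, b, _ | _⟩ := e
    · simp only [bo, mem_RE_false] at he ⊢
      push_cast
      omega
    · simp only [bo, mem_RE_true] at he ⊢
      push_cast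
      omega
  have sx : bo x M ⊆ bo x (2 * K) := by
    intro e he
    obtain ⟨a, b, _ | _⟩ := e
    · simp only [bo, mem_RE_false] at he ⊢
      push_cast
      omega
    · simp only [bo, mem_RE_true] at he ⊢
      push_cast
      omega
  have d0 : Disjoint (bo x (2 * K)) (bo x N \ bo x (2 * K)) := Finset.disjoint_sdiff
  have d1 : Disjoint (bo y M \ bo y m) (bo x N \ bo x (2 * K)) :=
    Finset.disjoint_of_subset_left (Finset.sdiff_subset.trans sy) d0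
  have d2 : Disjoint (bo x M \ bo x m) (bo x N \ bo x (2 * K)) :=
    Finset.disjoint_of_subset_left (Finset.sdiff_subset.trans sx) d0
  have d3 : Disjoint (bo x M \ bo x m) (bo y M \ bo y m) :=
    Finset.disjoint_of_subset_left Finset.sdiff_subset
      (Finset.disjoint_of_subset_right Finset.sdiff_subset (bo_disj (by omega)))
  have hiB : IncA (fun F => Cr y m M F ∧ Cr x (2 * K) N F) :=
    fun F G h hF => ⟨Cr_inc y m M F G h hF.1, Cr_inc x _ N F G h hF.2⟩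
  have hlB : LocE ((bo y M \ bo y m) ∪ (bo x N \ bo x (2 * K)))
      (fun F => Cr y m M F ∧ Cr x (2 * K) N F) := by
    intro F
    show (Cr y m M F ∧ Cr x (2 * K) N F) ↔
      (Cr y m M (F ∩ ((bo y M \ bo y m) ∪ (bo x N \ bo x (2 * K)))) ∧
        Cr x (2 * K) N (F ∩ ((bo y M \ bo y m) ∪ (bo x N \ bo x (2 * K)))))
    rw [Cr_loc F, Cr_loc (v := x) (r := 2 * K) (n := N) F,
      Cr_loc (F ∩ ((bo y M \ bo y m) ∪ (bo x N \ bo x (2 * K)))),
      Cr_loc (v := x) (r := 2 * K) (n := N)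
        (F ∩ ((bo y M \ bo y m) ∪ (bo x N \ bo x (2 * K))))]
    have e1 : F ∩ ((bo y M \ bo y m) ∪ (bo x N \ bo x (2 * K))) ∩ (bo y M \ bo y m) =
        F ∩ (bo y M \ bo y m) := by
      ext e; simp only [Finset.mem_inter, Finset.mem_union]; tauto
    have e2 : F ∩ ((bo y M \ bo y m) ∪ (bo x N \ bo x (2 * K))) ∩ (bo x N \ bo x (2 * K)) =
        F ∩ (bo x N \ bo x (2 * K)) := by
      ext e; simp only [Finset.mem_inter, Finset.mem_union]; tauto
    rw [e1, e2]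
  refine (indep2 S _ _ (Finset.disjoint_union_right.2 ⟨d3, d2⟩) (Cr_inc x m M) hiB Cr_loc
    hlB).trans ?_
  refine mul_le_mul (pr_Cr _ _ _ _) ?_ (Pr_nonneg okP _ _)
    (barm_nonneg (by norm_num) (by norm_num) _ _)
  refine (indep2 _ _ _ d1 (Cr_inc y m M) (Cr_inc x _ N) Cr_loc Cr_loc).trans ?_
  exact mul_le_mul (pr_Cr _ _ _ _) (pr_Cr _ _ _ _) (Pr_nonneg okP _ _)
    (barm_nonneg (by norm_num) (by norm_num) _ _)

end Pool.Agent.Run7.h885.CL
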